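import Pool.Agent.X320.CF.Lac

/-!
# Arithmeticity at a positive proportion of the places

Let `K` be a number field and `P v ∈ ℂ[X]`, `v ∉ S`, the characteristic polynomials of the Satake parameters of an
automorphic representation `Π` of `GL_n`. Fix one prime `ℓ` and an embedding `ι : ℂ → ℚ̄_ℓ`, and a subfield `E` of `ℂ`, for
instance a number field. Suppose that the conjugates of `Π` over `E` have `ℓ`-adic Galois representations: for the
automorphisms `τ` of `ℂ` over `E` there are continuous `ρ τ : G_K → GL_n(ℚ̄_ℓ)` such that the characteristic polynomial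
of `ρ τ` at the Frobenius elements of `v` is `ι (τ (P v))`. Suppose moreover that the traces of the `P v` are in `E` for a
set of places of positive upper density `δ`. We prove:

(A) If `ρ id` is strongly irreducible, then there is a finite abelian extension `L / K` of degree `m ≤ 1 / δ` such that
`P v ∈ E[X]` for all `v ∉ S` with a Frobenius element in `G_L`; the `m`-th powers of the coefficients of all `P v` are in
`E`; all `P v` are defined over one finite extension of `E`; and the places with trace in `E`, and the places with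
`P v ∈ E[X]`, have natural density exactly `1 / m`.

(B) Without any irreducibility: if `δ > 1 - 1 / (2 n²)`, then `P v ∈ E[X]` for all `v ∉ S`.

So the first assertion of the conjecture of Buzzard and Gee (all Satake parameters are defined over a number field)
follows from the second one and from the first one for the traces at a positive proportion of the places.

Proof. For `τ` as above the traces of `ρ τ` and `ρ id` agree on a closed subset of `G_K` of positive Haar measure. By
noetherian descent they agree on a coset of an open normal subgroup `H`. So the kernels of the group algebra of `H` in the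
two representations are the same, the two representations are conjugate on `H` by the theorem of Skolem and Noether, and
`ρ τ` is a twist of `ρ id` by a character of finite order. The intersection of finitely many kernels of such
characters has measure at least `δ`, so finitely many characters suffice. The rest is Galois theory in `ℂ` and
the theorem of Chebotarev.
-/

set_option autoImplicit false

namespace Pool.Agent.Results.MP_666dc0_nt.ArithmeticEverywhere

open NumberField IsDedekindDomain Filter Matrix Polynomial Topology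
open Pool.Agent.W401.Cheb (GK IsFrob dens)

/-- representations of `G_K` by `n × n` matrices over an algebraic closure of `ℚ_ℓ` -/
noncomputable abbrev Rep (K : Type) [Field K] (ℓ : ℕ) [Fact ℓ.Prime] (n : ℕ) : Type := GK K →* GL (Fin n) (PadicAlgCl ℓ)

/-- the matrix of `g` -/
noncomputable abbrev mat {K : Type} [Field K] {ℓ : ℕ} [Fact ℓ.Prime] {n : ℕ} (ρ : Rep K ℓ n) (g : GK K) :
    Matrix (Fin n) (Fin n) (PadicAlgCl ℓ) := (ρ g : Matrix (Fin n) (Fin n) (PadicAlgCl ℓ))

section

variable {K : Type} [Field K] [NumberField K] {ℓ : ℕ} [Fact ℓ.Prime] {n : ℕ}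

/-- `ρ` is strongly irreducible: for every open subgroup `H` the matrices `ρ (h)`, `h ∈ H`, span the space of all
matrices -/
def StronglyIrreducible (ρ : Rep K ℓ n) : Prop :=
  ∀ H : Subgroup (GK K), IsOpen (H : Set (GK K)) →
    Submodule.span (PadicAlgCl ℓ) ((fun h => mat ρ h) '' (H : Set (GK K))) = ⊤

/-- for `v ∉ S` the characteristic polynomial of all Frobenius elements at `v` is `Q v` -/
def Attached (ρ : Rep K ℓ n) (S : Set (HeightOneSpectrum (𝓞 K))) (Q : HeightOneSpectrum (𝓞 K) → (PadicAlgCl ℓ)[X]) :
    Prop :=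
  ∀ v, v ∉ S → ∀ σ, IsFrob v σ → (mat ρ σ).charpoly = Q v

/-- the polynomial `Q` has coefficients in `E` -/
def Over (E : Subfield ℂ) (Q : ℂ[X]) : Prop := ∀ j, Q.coeff j ∈ E

/-- the trace of a matrix with characteristic polynomial `Q` of degree `n` is in `E` -/
def TraceOver (E : Subfield ℂ) (n : ℕ) (Q : ℂ[X]) : Prop := -Q.coeff (n - 1) ∈ E

variable (K) in
/-- The conclusion (A): there is a finite abelian extension `L / K` (the field of the open normal subgroup `U`) of degree
`m ≤ 1 / δ` such that `P v` is defined over `E` if `v ∉ S` has a Frobenius element in `G_L`; the `m`-th powers of all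
coefficients are in `E`; all `P v`, `v ∉ S`, are defined over one finite extension `E'` of `E`; and the set of the
`v ∉ S` with trace in `E`, and the set of the `v ∉ S` with `P v` over `E`, have natural density `1 / m`. -/
def PotentiallyOver (S : Set (HeightOneSpectrum (𝓞 K))) (P : HeightOneSpectrum (𝓞 K) → ℂ[X]) (E : Subfield ℂ) (n : ℕ)
    (δ : ℝ) : Prop :=
  ∃ U : Subgroup (GK K), U.Normal ∧ IsOpen (U : Set (GK K)) ∧ (∀ a b : GK K, a * b * a⁻¹ * b⁻¹ ∈ U) ∧
    (U.index : ℝ) * δ ≤ 1 ∧
    (∀ v, v ∉ S → ∀ σ ∈ U, IsFrob v σ → Over E (P v)) ∧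
    (∀ v, v ∉ S → ∀ j, (P v).coeff j ^ U.index ∈ E) ∧
    (∃ E' : IntermediateField E ℂ, FiniteDimensional E E' ∧ ∀ v, v ∉ S → ∀ j, (P v).coeff j ∈ E') ∧
    Tendsto (dens fun v => v ∉ S ∧ TraceOver E n (P v)) atTop (𝓝 (1 / (U.index : ℝ))) ∧
    Tendsto (dens fun v => v ∉ S ∧ Over E (P v)) atTop (𝓝 (1 / (U.index : ℝ)))

end

/-- Let `K` be a number field, `S` a finite set of places, `P v ∈ ℂ[X]` for the places `v` of `K`, `E` a subfield of `ℂ`,
`ℓ` a prime and `ι : ℂ → ℚ̄_ℓ`. For every automorphism `τ` of `ℂ` over `E` let `ρ τ : G_K → GL_n(ℚ̄_ℓ)`, `n ≥ 1`, be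
continuous such that its Frobenius elements at `v ∉ S` have the characteristic polynomial `ι (τ (P v))`. Suppose that
the traces of the `P v` are in `E` for a set of places `v ∉ S` of upper density at least `δ > 0` (for
arbitrarily large `N` their proportion among the places of norm at most `N` is at least `δ`).
(A) If `ρ id` is strongly irreducible, then the conclusion `PotentiallyOver` holds.
(B) If `δ > 1 - 1 / (2 n²)`, then `P v ∈ E[X]` for all `v ∉ S`. -/
theorem result (K : Type) [Field K] [NumberField K] (ℓ : ℕ) [Fact ℓ.Prime] (n : ℕ) (hn : 0 < n)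
    (S : Set (HeightOneSpectrum (𝓞 K))) (hS : S.Finite) (P : HeightOneSpectrum (𝓞 K) → ℂ[X]) (E : Subfield ℂ)
    (ι : ℂ →+* PadicAlgCl ℓ) (ρ : (ℂ ≃+* ℂ) → Rep K ℓ n)
    (hρ : ∀ τ : ℂ ≃+* ℂ, (∀ x ∈ E, τ x = x) →
      Continuous (ρ τ) ∧ Attached (ρ τ) S (fun v => (P v).map (ι.comp (τ : ℂ →+* ℂ))))
    (δ : ℝ) (hδ : 0 < δ) (h : ∃ᶠ N in atTop, δ ≤ dens (fun v => v ∉ S ∧ TraceOver E n (P v)) N) :
    (StronglyIrreducible (ρ (RingEquiv.refl ℂ)) → PotentiallyOver K S P E n δ) ∧
      ((1 - δ) * (2 * (n : ℝ) ^ 2) < 1 → ∀ v, v ∉ S → Over E (P v)) := by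
  have e : (fun v => v ∉ S ∧ TraceOver E n (P v)) = fun v => v ∉ S ∧ (P v).coeff (n - 1) ∈ E := by
    funext v
    exact propext (and_congr_right fun _ => neg_mem_iff)
  rw [e] at h
  refine ⟨fun hs => ?_, fun hd v hv j => Pool.Agent.X320.CF.final0 hn (fun τ hτ => (hρ τ hτ).1)
    (fun τ hτ v hv σ hσ => (hρ τ hτ).2 v hv σ hσ) hd h hv j⟩
  have D : Pool.Agent.X320.CF.Sys E ι S P ρ :=
    ⟨hn, hS, fun τ hτ => (hρ τ hτ).1, hs, fun τ hτ v hv σ hσ => (hρ τ hτ).2 v hv σ hσ⟩
  obtain ⟨U, h1, h2, h3, h4, h5, h6, h7, h8, h9⟩ := Pool.Agent.X320.CF.final D hδ h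
  refine ⟨U, h1, h2, h3, h4, h5, h6, h7, ?_, h9⟩
  rw [e]
  exact h8

end Pool.Agent.Results.MP_666dc0_nt.ArithmeticEverywhere
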