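import Pool.Agent.X289.TF.LG
import Pool.Agent.X289.TF.Conj

/-!
# Patching homomorphisms to the L-group along arbitrary linearly disjoint extensions

Let `Π` be an L-algebraic automorphic representation of the reductive group `G` over the number field `K`. The
homomorphism `r : Γ_K → ᴸG(ℚ̄_ℓ)` which is expected can often only be constructed for the groups `Γ_F` of extensions
`F` of `K`, and one has to descend to `K`. The known patching lemmas concern `GL_n` and
solvable (in practice cyclic of prime degree) Galois extensions `F`. Here `F` is an arbitrary finite extension of `K`,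
not necessarily Galois, and only the Frobenius elements of `Γ_K` which lie in `Γ_F` are used.

We use the finite form `𝒢 = Ĝ(Ω) ⋊ Gal(L/K)` of the L-group with a faithful representation `𝒢 → GL_m(Ω)` (an
embedding of topological groups) and the projection `pr : 𝒢 → P = Gal(L/K)`, whose kernel is `Ĝ(Ω)`;
`act : Γ_K → P` is the restriction of automorphisms. (The results hold for all `𝒢`, `P`, `pr` and `act` such that the
image of `pr` contains the image of `act`.) A homomorphism from a subgroup `H` of `Γ_K` to `𝒢` is given by a function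
on `Γ_K` which is multiplicative on `H`; its values outside `H` do not matter. The Satake parameter of `Π_v` is a conjugacy class `C σ` of `Ĝ(Ω)` in
`𝒢` for every Frobenius element `σ` at `v`; `C (g σ g⁻¹)` is the conjugate of `C σ` by the elements of `𝒢` above `g`.

1. Two fields. Let `r₁` be admissible for `F₁` and let it have the parameters `C` at the Frobenius elements of `Γ_F₁`.
There is a finite Galois extension `M` of `K` such that for every finite extension `F₂` with `F₂ ∩ M = K` and every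
such `r₂` for `F₂` which agrees with `r₁` on the intersection of `Γ_F₁` and `Γ_F₂` there is exactly one homomorphism
`r : Γ_K → 𝒢` which extends `r₁` and `r₂`. It is admissible and has the right parameters at all Frobenius
elements (and is trivial on all inertia elements) outside `S` which have a conjugate that fixes `F₁` or `F₂`.

2. Families. Let `𝓕` be a set of finite extensions with such homomorphisms `r_F` which after conjugation by elements
`γ_F` of `Ĝ(Ω)` agree on the intersections of the groups. Suppose that for every finite Galois extension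
`M` of `K` there is an `F` in `𝓕` with `F ∩ M = K`. Then there are an admissible `r : Γ_K → 𝒢` and a finite Galois
extension `M₀` with: for all `F` in `𝓕` with `F ∩ M₀ = K` the restriction of `r` to `Γ_F` is conjugate to `r_F`
under `Ĝ(Ω)`. Hence `r` has the right parameters at all places outside `S`, if `F` can always be chosen such that
moreover a conjugate of a given Frobenius or inertia element outside `S` fixes `F`.

3. The condition on the agreement in 2 also follows if for any two `F`, `F'` in `𝓕` the restrictions of `r_F` and `r_F'`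
to the intersection of `Γ_F` and `Γ_F'` are conjugate under `Ĝ(Ω)`, and if elements of `Ĝ(Ω)` which commute with the
restriction of `r_F` to an open subgroup commute with `r_F`.
-/

set_option autoImplicit false
set_option linter.unusedSectionVars false

namespace Pool.Agent.Results.MP_666dc0_nt.LGroupPatching

open NumberField IsDedekindDomain Matrix
open Pool.Agent.W401.Cheb (GK IsFrob IsInert)

variable {K : Type} [Field K] [NumberField K]

/-- The finite form `𝒢 = Ĝ(Ω) ⋊ P` of the L-group, with an embedding into `GL_m(Ω)`, the projection `pr` to `P`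
(with kernel `Ĝ(Ω)`) and the homomorphism `act` from the absolute Galois group of `K` to `P = Gal(L/K)`. -/
structure LGroup (K : Type) [Field K] (m : ℕ) (Ω : Type) [Field Ω] [TopologicalSpace Ω] (𝒢 : Type) [Group 𝒢]
    [TopologicalSpace 𝒢] (P : Type) [Group P] where
  /-- the faithful representation -/
  emb : 𝒢 →* GL (Fin m) Ω
  inj : Function.Injective emb
  ind : Topology.IsInducing emb
  /-- the projection -/
  pr : 𝒢 →* P
  /-- the Galois group acts through this homomorphism -/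
  act : GK K →* P
  surj : ∀ g : GK K, ∃ γ : 𝒢, pr γ = act g

section defs

variable {m : ℕ} {Ω : Type} [Field Ω] [TopologicalSpace Ω] {𝒢 : Type} [Group 𝒢] [TopologicalSpace 𝒢] {P : Type}
  [Group P]

/-- Satake parameters: for the geometric Frobenius elements `σ` outside `S` the class `C σ`; it is compatible
with conjugation, and its elements have the same trace in the faithful representation -/
structure Parameters (L : LGroup K m Ω 𝒢 P) where
  /-- the class at the Frobenius element `σ` -/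
  C : GK K → Set 𝒢
  conj : ∀ (g σ : GK K) (γ : 𝒢), L.pr γ = L.act g → ∀ x ∈ C σ, γ * x * γ⁻¹ ∈ C (g * σ * g⁻¹)
  tr : ∀ σ, ∀ x ∈ C σ, ∀ y ∈ C σ, (L.emb x : Matrix (Fin m) (Fin m) Ω).trace =
    (L.emb y : Matrix (Fin m) (Fin m) Ω).trace

/-- `W` is stable under `r g`, `g` in `H` -/
def Stable (L : LGroup K m Ω 𝒢 P) (H : Subgroup (GK K)) (r : GK K → 𝒢) (W : Submodule Ω (Fin m → Ω)) : Prop :=
  ∀ g ∈ H, ∀ w ∈ W, (L.emb (r g) : Matrix (Fin m) (Fin m) Ω) *ᵥ w ∈ W

/-- `r` is a continuous homomorphism from the subgroup `H` of the absolute Galois group of `K` to `𝒢`; it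
commutes with the projections and is semisimple (stable subspaces have stable complements) -/
structure Admissible (L : LGroup K m Ω 𝒢 P) (H : Subgroup (GK K)) (r : GK K → 𝒢) : Prop where
  mul : ∀ x ∈ H, ∀ y ∈ H, r (x * y) = r x * r y
  cont : ContinuousOn r (H : Set (GK K))
  proj : ∀ x ∈ H, L.pr (r x) = L.act x
  ss : ∀ W, Stable L H r W → ∃ W', Stable L H r W' ∧ IsCompl W W'

/-- `r` is right at the element `σ`: it is trivial if `σ` is an inertia element, and has the right parameter if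
`σ` is a geometric Frobenius element, at a place outside `S` -/
def RightAt (L : LGroup K m Ω 𝒢 P) (C : Parameters L) (S : Set (HeightOneSpectrum (𝓞 K))) (r : GK K → 𝒢)
    (σ : GK K) : Prop :=
  ∀ v, v ∉ S → (IsInert v σ → r σ = 1) ∧ (IsFrob v σ⁻¹ → r σ ∈ C.C σ)

/-- `F` is a finite extension of `K` and `r` is an admissible homomorphism from its absolute Galois group which is
right at all its elements -/
structure Good (L : LGroup K m Ω 𝒢 P) (C : Parameters L) (S : Set (HeightOneSpectrum (𝓞 K)))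
    (F : IntermediateField K (AlgebraicClosure K)) (r : GK K → 𝒢) : Prop where
  fin : FiniteDimensional K F
  adm : Admissible L F.fixingSubgroup r
  par : ∀ σ ∈ F.fixingSubgroup, RightAt L C S r σ

/-- after conjugation by suitable elements of the kernel of `pr` the `r F`, `F` in `𝓕`, agree on intersections -/
def Agree (L : LGroup K m Ω 𝒢 P) (𝓕 : Set (IntermediateField K (AlgebraicClosure K)))
    (r : IntermediateField K (AlgebraicClosure K) → GK K → 𝒢) : Prop :=
  ∃ γ : IntermediateField K (AlgebraicClosure K) → 𝒢, (∀ F ∈ 𝓕, L.pr (γ F) = 1) ∧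
    ∀ F ∈ 𝓕, ∀ F' ∈ 𝓕, ∀ x ∈ F.fixingSubgroup, x ∈ F'.fixingSubgroup →
      γ F * r F x * (γ F)⁻¹ = γ F' * r F' x * (γ F')⁻¹

/-- any two of the `r F`, `F` in `𝓕`, are conjugate on the intersection of the groups -/
def PairwiseConj (L : LGroup K m Ω 𝒢 P) (𝓕 : Set (IntermediateField K (AlgebraicClosure K)))
    (r : IntermediateField K (AlgebraicClosure K) → GK K → 𝒢) : Prop :=
  ∀ F ∈ 𝓕, ∀ F' ∈ 𝓕, ∃ γ : 𝒢, L.pr γ = 1 ∧
    ∀ x ∈ F.fixingSubgroup, x ∈ F'.fixingSubgroup → r F' x = γ * r F x * γ⁻¹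

/-- an element of the kernel of `pr` which commutes with the restriction of `r F` to the group of a finite
extension `E` of `F` commutes with `r F` -/
def StableCentralizers (L : LGroup K m Ω 𝒢 P) (𝓕 : Set (IntermediateField K (AlgebraicClosure K)))
    (r : IntermediateField K (AlgebraicClosure K) → GK K → 𝒢) : Prop :=
  ∀ F ∈ 𝓕, ∀ E : IntermediateField K (AlgebraicClosure K), FiniteDimensional K E → F ≤ E →
    ∀ γ : 𝒢, L.pr γ = 1 → (∀ x ∈ E.fixingSubgroup, γ * r F x = r F x * γ) →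
      ∀ x ∈ F.fixingSubgroup, γ * r F x = r F x * γ

end defs

/-- a conjugate of `σ` fixes all elements of the field `F` -/
def ConjFixes (F : IntermediateField K (AlgebraicClosure K)) (σ : GK K) : Prop :=
  ∃ g : GK K, g⁻¹ * σ * g ∈ F.fixingSubgroup

/-- for every finite Galois extension `M` of `K` some `F` in `𝓕` has `F ∩ M = K` -/
def Large (𝓕 : Set (IntermediateField K (AlgebraicClosure K))) : Prop :=
  ∀ M : IntermediateField K (AlgebraicClosure K), FiniteDimensional K M → IsGalois K M → ∃ F ∈ 𝓕, F ⊓ M = ⊥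

/-- for every finite Galois extension `M` of `K` and every geometric Frobenius element or inertia element `σ` outside
`S` some `F` in `𝓕` has `F ∩ M = K` and is fixed by a conjugate of `σ` -/
def LargeAt (S : Set (HeightOneSpectrum (𝓞 K))) (𝓕 : Set (IntermediateField K (AlgebraicClosure K))) : Prop :=
  ∀ M : IntermediateField K (AlgebraicClosure K), FiniteDimensional K M → IsGalois K M →
    ∀ v, v ∉ S → ∀ σ : GK K, (IsFrob v σ⁻¹ ∨ IsInert v σ) → ∃ F ∈ 𝓕, F ⊓ M = ⊥ ∧ ConjFixes F σ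

section lemmas

variable {m : ℕ} {Ω : Type} [Field Ω] [TopologicalSpace Ω] {𝒢 : Type} [Group 𝒢] [TopologicalSpace 𝒢] {P : Type}
  [Group P] {L : LGroup K m Ω 𝒢 P} {C : Parameters L} {S : Set (HeightOneSpectrum (𝓞 K))}

/-- the homomorphism of matrices -/
noncomputable def hom (L : LGroup K m Ω 𝒢 P) {H : Subgroup (GK K)} {r : GK K → 𝒢} (h : Admissible L H r) :
    H →* GL (Fin m) Ω :=
  L.emb.comp (MonoidHom.mk' (fun x : H => r x) fun x y => h.mul x x.2 y y.2)

theorem hom_apply {H : Subgroup (GK K)} {r : GK K → 𝒢} (h : Admissible L H r) (x : H) : hom L h x = L.emb (r x) := rfl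

theorem hom_ss {H : Subgroup (GK K)} {r : GK K → 𝒢} (h : Admissible L H r) :
    Pool.Agent.X320.DS.Semisimple (hom L h) := by
  intro W hW
  obtain ⟨W', h1, h2⟩ := h.ss W fun g hg w hw => hW ⟨g, hg⟩ w hw
  exact ⟨W', fun g w hw => h1 g.1 g.2 w hw, h2⟩

theorem hom_cont {H : Subgroup (GK K)} {r : GK K → 𝒢} (h : Admissible L H r) : Continuous (hom L h) := by
  have h1 : Continuous fun x : H => r x := continuousOn_iff_continuous_domRestrict.1 h.cont
  exact L.ind.continuous.comp h1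

theorem trace_conj (γ x : 𝒢) : (L.emb (γ * x * γ⁻¹) : Matrix (Fin m) (Fin m) Ω).trace =
    (L.emb x : Matrix (Fin m) (Fin m) Ω).trace := by
  rw [map_mul, map_mul, Units.val_mul, Matrix.trace_mul_comm, ← Units.val_mul, ← mul_assoc, ← map_mul, inv_mul_cancel,
    map_one, one_mul]

theorem hconj [IsTopologicalRing Ω] [T2Space Ω] (hS : S.Finite) {H : Subgroup (GK K)} (hH : IsOpen (H : Set (GK K)))
    {r : GK K → 𝒢} (hr : Admissible L H r) (hp : ∀ σ ∈ H, RightAt L C S r σ) (g u : GK K) (hu : u ∈ H)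
    (hu' : g⁻¹ * u * g ∈ H) : (hom L hr ⟨g⁻¹ * u * g, hu'⟩ : Matrix (Fin m) (Fin m) Ω).trace =
      (hom L hr ⟨u, hu⟩ : Matrix (Fin m) (Fin m) Ω).trace := by
  have hI := Pool.Agent.X289.TF.cInter_open hH hH g
  have hIm : ∀ x : Pool.Agent.X289.TF.cInter H H g, x.1 ∈ H ∧ g⁻¹ * x.1 * g ∈ H := fun x =>
    Pool.Agent.X289.TF.mem_cInter.1 x.2
  have hc : Continuous fun x : H => (hom L hr x : Matrix (Fin m) (Fin m) Ω).trace :=
    (Units.continuous_val.comp (hom_cont hr)).matrix_trace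
  refine Pool.Agent.X289.TF.cheb_eq hS hI
    (fun x => (hom L hr ⟨g⁻¹ * x.1 * g, (hIm x).2⟩ : Matrix (Fin m) (Fin m) Ω).trace)
    (fun x => (hom L hr ⟨x.1, (hIm x).1⟩ : Matrix (Fin m) (Fin m) Ω).trace)
    (hc.comp (Continuous.subtype_mk (((continuous_const_mul _).comp continuous_subtype_val).mul continuous_const) _))
    (hc.comp (Continuous.subtype_mk continuous_subtype_val _)) (fun v hv x hx => ?_)
    ⟨u, Pool.Agent.X289.TF.mem_cInter.2 ⟨hu, hu'⟩⟩
  have h1 := (hp x.1 (hIm x).1 v hv).2 hx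
  have h2 := (hp (g⁻¹ * x.1 * g) (hIm x).2 v hv).2 (by
    have := Pool.Agent.X289.TF.isFrob_conj' hx g
    have e : (g⁻¹ * x.1 * g)⁻¹ = g⁻¹ * x.1⁻¹ * g := by group
    rw [e]
    exact this)
  obtain ⟨γ, hγ⟩ := L.surj g
  have h3 := C.conj g (g⁻¹ * x.1 * g) γ hγ _ h2
  have e : g * (g⁻¹ * x.1 * g) * g⁻¹ = x.1 := by group
  rw [e] at h3
  exact (trace_conj γ _).symm.trans (C.tr _ _ h3 _ h1)

theorem local_of_ext {F : IntermediateField K (AlgebraicClosure K)} {r : GK K → 𝒢} (hr : Admissible L ⊤ r)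
    {r₁ : GK K → 𝒢} (hp : ∀ σ ∈ F.fixingSubgroup, RightAt L C S r₁ σ) {γ : 𝒢} (hγ : L.pr γ = 1)
    (h : ∀ x ∈ F.fixingSubgroup, r x = γ * r₁ x * γ⁻¹) {σ : GK K} (hσ : ConjFixes F σ) : RightAt L C S r σ := by
  obtain ⟨g, hg⟩ := hσ
  let R : GK K →* 𝒢 := MonoidHom.mk' r fun x y => hr.mul x trivial y trivial
  have hR : ∀ x, R x = r x := fun _ => rfl
  have e : σ = g * (g⁻¹ * σ * g) * g⁻¹ := by group
  have h1 : R (g⁻¹ * σ * g) = γ * r₁ (g⁻¹ * σ * g) * γ⁻¹ := h _ hg
  refine fun v hv => ⟨fun hI => ?_, fun hF => ?_⟩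
  · have h2 := (hp _ hg v hv).1 (Pool.Agent.X289.TF.isInert_conj' hI g)
    rw [h2, mul_one, mul_inv_cancel] at h1
    rw [← hR, e, map_mul, map_mul, h1, mul_one, ← map_mul, mul_inv_cancel, map_one]
  · have h2 := (hp _ hg v hv).2 (by
      have := Pool.Agent.X289.TF.isFrob_conj' hF g
      have e : (g⁻¹ * σ * g)⁻¹ = g⁻¹ * σ⁻¹ * g := by group
      rw [e]
      exact this)
    have h3 := C.conj 1 (g⁻¹ * σ * g) γ (by rw [hγ, map_one]) _ h2
    rw [← h1] at h3
    have h4 := C.conj g _ (R g) (hr.proj g trivial) _ h3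
    have e2 : R g * R (g⁻¹ * σ * g) * (R g)⁻¹ = R σ := by
      rw [← map_mul, ← map_inv, ← map_mul]
      congr 1
      group
    have e3 : g * (1 * (g⁻¹ * σ * g) * 1⁻¹) * g⁻¹ = σ := by group
    rw [e2, e3] at h4
    exact h4

/-- conjugates of admissible homomorphisms -/
theorem adm_conj [IsTopologicalRing Ω] {H : Subgroup (GK K)} {r : GK K → 𝒢} (hr : Admissible L H r) {γ : 𝒢}
    (hγ : L.pr γ = 1) : Admissible L H fun x => γ * r x * γ⁻¹ := by
  refine ⟨fun x hx y hy => ?_, ?_, fun x hx => ?_, fun W hW => ?_⟩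
  · show γ * r (x * y) * γ⁻¹ = γ * r x * γ⁻¹ * (γ * r y * γ⁻¹)
    rw [hr.mul x hx y hy]
    group
  · rw [L.ind.continuousOn_iff]
    have h1 : ContinuousOn (L.emb ∘ r) (H : Set (GK K)) := L.ind.continuous.comp_continuousOn hr.cont
    have e : (L.emb ∘ fun x => γ * r x * γ⁻¹) = fun x => L.emb γ * (L.emb ∘ r) x * (L.emb γ)⁻¹ := by
      funext x
      show L.emb (γ * r x * γ⁻¹) = L.emb γ * L.emb (r x) * (L.emb γ)⁻¹
      rw [map_mul, map_mul, map_inv]
    rw [e]
    exact (continuousOn_const.mul h1).mul continuousOn_const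
  · show L.pr (γ * r x * γ⁻¹) = L.act x
    rw [map_mul, map_mul, map_inv, hγ, one_mul, inv_one, mul_one, hr.proj x hx]
  · have hh := Pool.Agent.X289.TF.semisimple_conj (ρ := hom L hr)
      (ρ' := ((MulAut.conj (L.emb γ)).toMonoidHom.comp (hom L hr))) (A := L.emb γ) (fun x => rfl) (hom_ss hr)
    have e : ∀ g : H, (((MulAut.conj (L.emb γ)).toMonoidHom.comp (hom L hr)) g : Matrix (Fin m) (Fin m) Ω) =
        (L.emb (γ * r g * γ⁻¹) : Matrix (Fin m) (Fin m) Ω) := by
      intro g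
      rw [map_mul, map_mul, map_inv]
      rfl
    obtain ⟨W', h1, h2⟩ := hh W fun g w hw => by
      rw [e]
      exact hW g g.2 w hw
    refine ⟨W', fun g hg w hw => ?_, h2⟩
    have := h1 ⟨g, hg⟩ w hw
    rwa [e] at this

/-- the homomorphism to `𝒢` -/
theorem exists_hom {ρ : GK K →* GL (Fin m) Ω} (hc : Continuous ρ) (hs : Pool.Agent.X320.DS.Semisimple ρ)
    (h : ∀ g, ∃ x : 𝒢, L.emb x = ρ g ∧ L.pr x = L.act g) :
    ∃ r : GK K → 𝒢, Admissible L ⊤ r ∧ ∀ g, L.emb (r g) = ρ g := by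
  choose r hr1 hr2 using h
  refine ⟨r, ⟨fun x _ y _ => L.inj ?_, ?_, fun x _ => hr2 x, fun W hW => ?_⟩, hr1⟩
  · rw [hr1, map_mul, map_mul, hr1, hr1]
  · have h1 : Continuous r := by
      rw [L.ind.continuous_iff]
      have e : L.emb ∘ r = ρ := funext hr1
      rw [e]
      exact hc
    exact h1.continuousOn
  · obtain ⟨W', h1, h2⟩ := hs W fun g w hw => by
      have := hW g trivial w hw
      rwa [hr1] at this
    refine ⟨W', fun g _ w hw => ?_, h2⟩
    rw [hr1]
    exact h1 g w hw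

end lemmas

/-- **Patching of homomorphisms to the L-group along arbitrary linearly disjoint extensions.** -/
theorem result (K : Type) [Field K] [NumberField K] (m : ℕ) (Ω : Type) [Field Ω] [CharZero Ω] [TopologicalSpace Ω]
    [IsTopologicalRing Ω] [T2Space Ω] (𝒢 : Type) [Group 𝒢] [TopologicalSpace 𝒢] (P : Type) [Group P]
    (L : LGroup K m Ω 𝒢 P) (C : Parameters L) (S : Set (HeightOneSpectrum (𝓞 K))) (hS : S.Finite) :
    (∀ (F₁ : IntermediateField K (AlgebraicClosure K)) (r₁ : GK K → 𝒢), Good L C S F₁ r₁ →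
      ∃ M : IntermediateField K (AlgebraicClosure K), FiniteDimensional K M ∧ IsGalois K M ∧
        ∀ (F₂ : IntermediateField K (AlgebraicClosure K)) (r₂ : GK K → 𝒢), F₂ ⊓ M = ⊥ → Good L C S F₂ r₂ →
          (∀ x ∈ F₁.fixingSubgroup, x ∈ F₂.fixingSubgroup → r₁ x = r₂ x) →
        ∃ r : GK K → 𝒢, Admissible L ⊤ r ∧ (∀ x ∈ F₁.fixingSubgroup, r x = r₁ x) ∧
          (∀ x ∈ F₂.fixingSubgroup, r x = r₂ x) ∧
          (∀ r' : GK K →* 𝒢, (∀ x ∈ F₁.fixingSubgroup, r' x = r₁ x) → (∀ x ∈ F₂.fixingSubgroup, r' x = r₂ x) →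
            ∀ x, r' x = r x) ∧
          ∀ σ, ConjFixes F₁ σ ∨ ConjFixes F₂ σ → RightAt L C S r σ) ∧
    ∀ (𝓕 : Set (IntermediateField K (AlgebraicClosure K)))
      (r : IntermediateField K (AlgebraicClosure K) → GK K → 𝒢), (∀ F ∈ 𝓕, Good L C S F (r F)) → Large 𝓕 →
      (Agree L 𝓕 r → ∃ R : GK K → 𝒢, Admissible L ⊤ R ∧
        (∃ M₀ : IntermediateField K (AlgebraicClosure K), FiniteDimensional K M₀ ∧ IsGalois K M₀ ∧
          ∀ F ∈ 𝓕, F ⊓ M₀ = ⊥ → (∃ γ : 𝒢, L.pr γ = 1 ∧ ∀ x ∈ F.fixingSubgroup, R x = γ * r F x * γ⁻¹) ∧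
            ∀ σ, ConjFixes F σ → RightAt L C S R σ) ∧
        (LargeAt S 𝓕 → ∀ σ, RightAt L C S R σ)) ∧
      (PairwiseConj L 𝓕 r → StableCentralizers L 𝓕 r → Agree L 𝓕 r) := by
  have hn : ((m.factorial : ℕ) : Ω) ≠ 0 := by exact_mod_cast m.factorial_ne_zero
  refine ⟨?_, fun 𝓕 r hF hlarge => ⟨?_, ?_⟩⟩
  · rintro F₁ r₁ ⟨hF₁, ha₁, hp₁⟩
    obtain ⟨N, U, hNn, hUn, hNo, hUo, hUN, hN1, hU⟩ := Pool.Agent.X289.TF.exists_NU hn F₁.fixingSubgroup
      (IntermediateField.fixingSubgroup_isOpen F₁) (hom L ha₁) (hom_cont ha₁) (hom_ss ha₁)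
    have := hNn
    obtain ⟨M, hM1, hM2, hM3⟩ := Pool.Agent.X289.TF.exists_field U hUn hUo
    refine ⟨M, hM1, hM2, fun F₂ r₂ hd hG₂ hag => ?_⟩
    obtain ⟨hF₂, ha₂, hp₂⟩ := hG₂
    have := hF₂
    have := hM2
    have hg := Pool.Agent.X289.TF.gen_of_inf F₂ M hd
    rw [hM3] at hg
    obtain ⟨ρ, hc, hs, h2, h1⟩ := Pool.Agent.X289.TF.two_exact hn (hom_ss ha₁) hUN hN1 hU
      (hconj hS (IntermediateField.fixingSubgroup_isOpen F₁) ha₁ hp₁) F₂.fixingSubgroup
      (IntermediateField.fixingSubgroup_isOpen F₂) (hom L ha₂) (hom_cont ha₂)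
      (hom_ss ha₂) (fun x hx1 hx2 => by
        rw [hom_apply, hom_apply, hag x hx1 hx2]) hg
    have hdec : ∀ g : GK K, ∃ h ∈ F₂.fixingSubgroup, ∃ u ∈ F₁.fixingSubgroup, g = h * u := by
      intro g
      obtain ⟨h, hh, u, hu, e⟩ := hg g
      exact ⟨h, hh, u, hN1 (hUN hu), e⟩
    obtain ⟨r, hr, hrρ⟩ := exists_hom (L := L) hc hs fun g => by
      obtain ⟨h, hh, u, hu, rfl⟩ := hdec g
      refine ⟨r₂ h * r₁ u, ?_, ?_⟩
      · rw [map_mul, map_mul, h2 h hh, h1 u hu, hom_apply, hom_apply]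
      · rw [map_mul, map_mul, ha₁.proj u hu, ha₂.proj h hh]
    have hr1 : ∀ x ∈ F₁.fixingSubgroup, r x = r₁ x := fun x hx => L.inj (by rw [hrρ, h1 x hx, hom_apply])
    have hr2 : ∀ x ∈ F₂.fixingSubgroup, r x = r₂ x := fun x hx => L.inj (by rw [hrρ, h2 x hx, hom_apply])
    refine ⟨r, hr, hr1, hr2, fun r' h1' h2' g => ?_, fun σ hσ => ?_⟩
    · obtain ⟨h, hh, u, hu, rfl⟩ := hdec g
      rw [map_mul, h1' u hu, h2' h hh, hr.mul h trivial u trivial, hr1 u hu, hr2 h hh]
    · rcases hσ with hσ | hσ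
      · exact local_of_ext hr hp₁ (γ := 1) (map_one _) (fun x hx => by
          rw [hr1 x hx, inv_one, one_mul, mul_one]) hσ
      · exact local_of_ext hr hp₂ (γ := 1) (map_one _) (fun x hx => by
          rw [hr2 x hx, inv_one, one_mul, mul_one]) hσ
  · rintro ⟨γ, hγ1, hγ2⟩
    have hadm : ∀ i : 𝓕, Admissible L i.1.fixingSubgroup fun x => γ i.1 * r i.1 x * (γ i.1)⁻¹ := fun i =>
      adm_conj (hF i.1 i.2).adm (hγ1 i.1 i.2)
    have hFE : Pool.Agent.X289.TF.FamE (fun i : 𝓕 => i.1.fixingSubgroup) (fun i => hom L (hadm i)) := by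
      refine ⟨fun i => ?_, fun i => hom_cont _, fun i => hom_ss _, fun i g u hu hu' => ?_, fun i j x h h' => ?_,
        fun U hUn hUo => ?_⟩
      · have := (hF i.1 i.2).fin
        exact IntermediateField.fixingSubgroup_isOpen i.1
      · have := (hF i.1 i.2).fin
        have h1 := hconj hS (IntermediateField.fixingSubgroup_isOpen i.1) (hF i.1 i.2).adm (hF i.1 i.2).par g u hu hu'
        exact ((trace_conj (γ i.1) _).trans h1).trans (trace_conj (γ i.1) _).symm
      · exact congrArg L.emb (hγ2 i.1 i.2 j.1 j.2 x h h')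
      · obtain ⟨M, hM1, hM2, hM3⟩ := Pool.Agent.X289.TF.exists_field U hUn hUo
        obtain ⟨F, hFF, hFM⟩ := hlarge M hM1 hM2
        have := (hF F hFF).fin
        have := hM2
        refine ⟨⟨F, hFF⟩, ?_⟩
        rw [← hM3]
        exact Pool.Agent.X289.TF.gen_of_inf F M hFM
    obtain ⟨ρ, hc, hs, hdec, U, hUn, hUo, hU⟩ := Pool.Agent.X289.TF.family_exact hn hFE
    obtain ⟨R, hR, hRρ⟩ := exists_hom (L := L) hc hs fun g => by
      obtain ⟨i, x, j, x', e1, e2⟩ := hdec g
      refine ⟨(γ i.1 * r i.1 x * (γ i.1)⁻¹) * (γ j.1 * r j.1 x' * (γ j.1)⁻¹), ?_, ?_⟩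
      · rw [e2, map_mul]
        rfl
      · have h3 := (hadm i).proj x x.2
        have h4 := (hadm j).proj x' x'.2
        rw [map_mul L.pr, h3, h4, e1, map_mul]
    obtain ⟨M, hM1, hM2, hM3⟩ := Pool.Agent.X289.TF.exists_field U hUn hUo
    have key : ∀ F ∈ 𝓕, F ⊓ M = ⊥ → (∃ γ : 𝒢, L.pr γ = 1 ∧ ∀ x ∈ F.fixingSubgroup, R x = γ * r F x * γ⁻¹) ∧
        ∀ σ, ConjFixes F σ → RightAt L C S R σ := by
      intro F hFF hFM
      have := (hF F hFF).fin
      have := hM2
      have hgen := Pool.Agent.X289.TF.gen_of_inf F M hFM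
      rw [hM3] at hgen
      have h1 : ∀ x ∈ F.fixingSubgroup, R x = γ F * r F x * (γ F)⁻¹ := fun x hx => L.inj (by
        rw [hRρ]
        exact hU ⟨F, hFF⟩ hgen ⟨x, hx⟩)
      exact ⟨⟨γ F, hγ1 F hFF, h1⟩, fun σ hσ => local_of_ext hR (hF F hFF).par (hγ1 F hFF) h1 hσ⟩
    refine ⟨R, hR, ⟨M, hM1, hM2, key⟩, fun hcov σ v hv => ⟨fun hI => ?_, fun hFr => ?_⟩⟩
    · obtain ⟨F, hFF, hFM, hσ⟩ := hcov M hM1 hM2 v hv σ (Or.inr hI)
      exact ((key F hFF hFM).2 σ hσ v hv).1 hI
    · obtain ⟨F, hFF, hFM, hσ⟩ := hcov M hM1 hM2 v hv σ (Or.inl hFr)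
      exact ((key F hFF hFM).2 σ hσ v hv).2 hFr
  · intro hpair hcent
    classical
    obtain ⟨F₀, hF₀, -⟩ := hlarge ⊥ inferInstance inferInstance
    have hfin : ∀ F ∈ 𝓕, FiniteDimensional K F := fun F hFF => (hF F hFF).fin
    choose! γ hγ1 hγ2 using fun F (hF : F ∈ 𝓕) => hpair F hF F₀ hF₀
    refine ⟨γ, hγ1, fun F hF F' hF' x h h' => ?_⟩
    obtain ⟨g, hg1, hg2⟩ := hpair F hF F' hF'
    have := hfin F hF
    have := hfin F' hF'
    have := hfin F₀ hF₀
    have hle1 : F ≤ F ⊔ F' ⊔ F₀ := le_sup_left.trans le_sup_left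
    have hle2 : F' ≤ F ⊔ F' ⊔ F₀ := le_sup_right.trans le_sup_left
    have hle3 : F₀ ≤ F ⊔ F' ⊔ F₀ := le_sup_right
    have hδ := hcent F hF (F ⊔ F' ⊔ F₀) inferInstance hle1 ((γ F)⁻¹ * γ F' * g) (by
      rw [map_mul, map_mul, map_inv, hγ1 F hF, hγ1 F' hF', hg1, inv_one, one_mul, one_mul]) (fun y hy => by
      have hyF : y ∈ F.fixingSubgroup := IntermediateField.fixingSubgroup_le hle1 hy
      have hyF' : y ∈ F'.fixingSubgroup := IntermediateField.fixingSubgroup_le hle2 hy
      have hyF₀ : y ∈ F₀.fixingSubgroup := IntermediateField.fixingSubgroup_le hle3 hy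
      have e1 := hγ2 F hF y hyF hyF₀
      have e2 := hγ2 F' hF' y hyF' hyF₀
      have e3 := hg2 y hyF hyF'
      rw [e3] at e2
      have e4 : γ F * r F y * (γ F)⁻¹ = γ F' * (g * r F y * g⁻¹) * (γ F')⁻¹ := e1.symm.trans e2
      calc (γ F)⁻¹ * γ F' * g * r F y
          = (γ F)⁻¹ * (γ F' * (g * r F y * g⁻¹) * (γ F')⁻¹) * γ F' * g := by group
        _ = (γ F)⁻¹ * (γ F * r F y * (γ F)⁻¹) * γ F' * g := by rw [← e4]
        _ = r F y * ((γ F)⁻¹ * γ F' * g) := by group) x h
    rw [hg2 x h h']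
    calc γ F * r F x * (γ F)⁻¹
        = γ F * (r F x * ((γ F)⁻¹ * γ F' * g)) * ((γ F)⁻¹ * γ F' * g)⁻¹ * (γ F)⁻¹ := by group
      _ = γ F * ((γ F)⁻¹ * γ F' * g * r F x) * ((γ F)⁻¹ * γ F' * g)⁻¹ * (γ F)⁻¹ := by rw [hδ]
      _ = γ F' * (g * r F x * g⁻¹) * (γ F')⁻¹ := by group

end Pool.Agent.Results.MP_666dc0_nt.LGroupPatching
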