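import Pool.Agent.X289.OD.OrthNF

/-!
# Galois representations for symplectic groups from arbitrary finite extensions

Let `K` be a number field and `Π` an `L`-algebraic automorphic representation of `Sp_{2m}` over `K`; here the dual group
is `SO_n` with `n = 2 m + 1`, the `L`-group is the product with the absolute Galois group, and the Satake parameters at
the places `v` outside `Σ` are given by `n` eigenvalues `a v 0, …, a v (n - 1)`: two semisimple elements of `SO_n` which
are conjugate in `GL_n` are conjugate in `SO_n`, as `n` is odd. For a finite extension `F` of `K` let `r_F` be the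
`SO_n`-valued `ℓ`-adic representation of the absolute Galois group of `F` which should belong to the base change of
`Π` to `F`. Potential existence of `r_Π` is the existence of `r_F` for some `F`. We show that `r_Π` exists over
`K` as soon as it exists potentially, with a given place of `K` split off:

If for each place `v` outside `Σ` with `v ∤ ℓ` there is some finite extension `F` of `K`, of any degree and not necessarily
Galois, with a place over `v` of local degree one, such that `r_F` exists and is irreducible over all finite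
extensions, then `r_Π` exists and is unique up to conjugation in `SO_n`. Its restriction to the group of `F` is `r_F`.

No compatibility between the fields is needed, in contrast to the patching lemmas of Blasius, Rogawski and Sorensen
for `GL_n` and to `LGroupPatching`, where the fields must be disjoint from given ones and solvable or in large families.
For `GL_n` there is in general an obstruction, a class of degree two with values in the group of scalars; it vanishes
for extensions of degree prime to `n` (`OddDegreeFields` in `MP_976e2b_nt`). Here there is none.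

Idea of the proof: the element of `SO_n` which induces on `r_F (Γ_M)`, where `M` is a Galois extension of `K` which
contains `F`, the conjugation by a given element of `Γ_K` exists by Chebotarev's theorem and the Brauer-Nesbitt
theorem, and it is unique because the only scalar in `SO_n` is one and because an invariant quadratic form is unique
up to a factor. So these elements form a representation of `Γ_K` which extends `r_F`, and those which come from
different fields agree.
-/

set_option autoImplicit false

namespace Pool.Agent.Results.MP_666dc0_nt.OddOrthogonalDescent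

open NumberField IsDedekindDomain Matrix
open Pool.Agent.W401.Cheb (GK IsFrob IsInert)

variable {K : Type} [Field K] [NumberField K] {Ω : Type} [Field Ω] [TopologicalSpace Ω] {n : ℕ}

/-- the matrix `A` is orthogonal with determinant one -/
def InSO (A : GL (Fin n) Ω) : Prop :=
  (A : Matrix (Fin n) (Fin n) Ω)ᵀ * (A : Matrix (Fin n) (Fin n) Ω) = 1 ∧ (A : Matrix (Fin n) (Fin n) Ω).det = 1

/-- the matrix `A` is diagonalisable with the eigenvalues `d i` -/
def HasEigenvalues (A : GL (Fin n) Ω) (d : Fin n → Ω) : Prop :=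
  ∃ B : GL (Fin n) Ω, (A : Matrix (Fin n) (Fin n) Ω) = (B : Matrix (Fin n) (Fin n) Ω) * Matrix.diagonal d *
    ((B⁻¹ : GL (Fin n) Ω) : Matrix (Fin n) (Fin n) Ω)

/-- The representation `r` of the subgroup `H` of the absolute Galois group of `K` is continuous, has values in `SO_n`
and corresponds to the eigenvalues `a v` at the finite places `v` of `K` outside `S`: elements of `H` which are inertia
elements at `v` act trivially, and elements of `H` which are geometric Frobenius elements at `v` are diagonalisable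
with the eigenvalues `a v i`. -/
def CorrespondsOn (H : Subgroup (GK K)) (r : H →* GL (Fin n) Ω) (S : Set (HeightOneSpectrum (𝓞 K)))
    (a : HeightOneSpectrum (𝓞 K) → Fin n → Ω) : Prop :=
  Continuous r ∧ (∀ x, InSO (r x)) ∧ ∀ v, v ∉ S → (∀ τ : H, IsInert v (τ : GK K) → r τ = 1) ∧
    ∀ σ : H, IsFrob v ((σ : GK K)⁻¹) → HasEigenvalues (r σ) (a v)

/-- `r` is absolutely irreducible on the group of `M`: the matrices `r x`, `x` in the group of `M`, span the algebra of
all matrices. -/
def AbsIrreducibleOver {H : Subgroup (GK K)} (r : H →* GL (Fin n) Ω)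
    (M : IntermediateField K (AlgebraicClosure K)) : Prop :=
  Submodule.span Ω ((fun x : H => (r x : Matrix (Fin n) (Fin n) Ω)) '' {x | (x : GK K) ∈ M.fixingSubgroup}) = ⊤

/-- some conjugate of `g` fixes one of the fields `F i` -/
def Covered {ι : Type} (F : ι → IntermediateField K (AlgebraicClosure K)) (g : GK K) : Prop :=
  ∃ i, ∃ c : GK K, c⁻¹ * g * c ∈ (F i).fixingSubgroup

/-- The representation `R` is right at all inertia and Frobenius elements outside `S` that have a conjugate which fixes
one of the fields `F i`. -/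
def RightAtCovered {ι : Type} (F : ι → IntermediateField K (AlgebraicClosure K)) (R : GK K →* GL (Fin n) Ω)
    (S : Set (HeightOneSpectrum (𝓞 K))) (a : HeightOneSpectrum (𝓞 K) → Fin n → Ω) : Prop :=
  ∀ v, v ∉ S → (∀ τ, IsInert v τ → Covered F τ → R τ = 1) ∧
    ∀ σ, IsFrob v σ → Covered F σ⁻¹ → HasEigenvalues (R σ⁻¹) (a v)

/-- `R` and `R'` are conjugate under `SO_n` -/
def SOConj {Γ : Type} [Group Γ] (R R' : Γ →* GL (Fin n) Ω) : Prop :=
  ∃ A : GL (Fin n) Ω, InSO A ∧ ∀ g, R' g = A * R g * A⁻¹

omit [TopologicalSpace Ω] in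
theorem inSO_iff (A : GL (Fin n) Ω) : InSO A ↔ Pool.Agent.X289.OD.InSO A := by
  constructor
  · rintro ⟨h1, h2⟩
    exact ⟨Units.ext h1, Units.ext h2⟩
  · rintro ⟨h1, h2⟩
    exact ⟨congrArg Units.val h1, congrArg Units.val h2⟩

omit [TopologicalSpace Ω] in
theorem HasEigenvalues.conj {A : GL (Fin n) Ω} {d : Fin n → Ω} (h : HasEigenvalues A d) (B : GL (Fin n) Ω) :
    HasEigenvalues (B * A * B⁻¹) d := by
  obtain ⟨C, hC⟩ := h
  refine ⟨B * C, ?_⟩
  rw [Units.val_mul, Units.val_mul, hC, _root_.mul_inv_rev, Units.val_mul, Units.val_mul]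
  simp only [mul_assoc]

/-- **Galois representations for symplectic groups from arbitrary finite extensions.** -/
theorem result (K : Type) [Field K] [NumberField K] (Ω : Type) [Field Ω] [IsAlgClosed Ω] [TopologicalSpace Ω]
    [IsTopologicalRing Ω] [T2Space Ω] (n : ℕ) (hn : Odd n) (S : Set (HeightOneSpectrum (𝓞 K))) (hS : S.Finite)
    (a : HeightOneSpectrum (𝓞 K) → Fin n → Ω)
    (ι : Type) (F : ι → IntermediateField K (AlgebraicClosure K)) (hfin : ∀ i, FiniteDimensional K (F i))
    (r : ∀ i, (F i).fixingSubgroup →* GL (Fin n) Ω)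
    (hr : ∀ i, CorrespondsOn (F i).fixingSubgroup (r i) S a) (i₀ : ι)
    (hirr : ∀ i, ∃ M : IntermediateField K (AlgebraicClosure K), IsGalois K M ∧
      F i ≤ M ∧ F i₀ ≤ M ∧ AbsIrreducibleOver (r i) M) :
    ∃ R : GK K →* GL (Fin n) Ω, Continuous R ∧ (∀ g, InSO (R g)) ∧
      (∀ i, SOConj (r i) (R.comp (F i).fixingSubgroup.subtype)) ∧ RightAtCovered F R S a ∧
      ∀ R' : GK K →* GL (Fin n) Ω, (∀ g, InSO (R' g)) →
        (∃ i, ∀ x : (F i).fixingSubgroup, (R' x : Matrix (Fin n) (Fin n) Ω).trace =
          (r i x : Matrix (Fin n) (Fin n) Ω).trace) → SOConj R R' := by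
  choose M hM2 hM3 hM4 hM5 using hirr
  have hle : ∀ i, (M i).fixingSubgroup ≤ (F i).fixingSubgroup := fun i =>
    IntermediateField.fixingSubgroup_antitone (hM3 i)
  have hle₀ : ∀ i, (M i).fixingSubgroup ≤ (F i₀).fixingSubgroup := fun i =>
    IntermediateField.fixingSubgroup_antitone (hM4 i)
  have hnorm : ∀ i, (M i).fixingSubgroup.Normal := fun i => by
    have := hM2 i
    exact (InfiniteGalois.normal_iff_isGalois (M i)).2 inferInstance
  have hsp : ∀ i, Pool.Agent.X289.OD.Spans ((r i).comp (Subgroup.inclusion (hle i))) := by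
    intro i
    unfold Pool.Agent.X289.OD.Spans
    rw [← hM5 i]
    congr 1
    ext b
    constructor
    · rintro ⟨u, rfl⟩
      exact ⟨Subgroup.inclusion (hle i) u, u.2, rfl⟩
    · rintro ⟨x, hx, rfl⟩
      exact ⟨⟨x.1, hx⟩, rfl⟩
  have hCOn : ∀ i, Pool.Agent.X289.TF.COn (F i).fixingSubgroup (r i) S
      (fun v => (Matrix.diagonal (a v) : Matrix (Fin n) (Fin n) Ω).charpoly) := by
    intro i v hv
    refine ⟨((hr i).2.2 v hv).1, fun σ hσ => ?_⟩
    obtain ⟨B, hB⟩ := ((hr i).2.2 v hv).2 σ hσ
    rw [hB, mul_assoc, Matrix.charpoly_mul_comm, mul_assoc, ← Units.val_mul, inv_mul_cancel, Units.val_one, mul_one]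
  obtain ⟨R, h1, h2, h3, h4⟩ := Pool.Agent.X289.OD.nf_orth hn hS i₀ (fun i => (F i).fixingSubgroup)
    (fun i => by
      have := hfin i
      exact IntermediateField.fixingSubgroup_isOpen (F i)) r (fun i => (hr i).1)
    (fun i x => (inSO_iff _).1 ((hr i).2.1 x)) hCOn (fun i => (M i).fixingSubgroup) hnorm hle hle₀ hsp
  refine ⟨R, h1, fun g => (inSO_iff _).2 (h2 g), fun i => ?_, fun v hv => ⟨?_, ?_⟩, fun R' hR' htr => ?_⟩
  · obtain ⟨A, hA1, hA⟩ := h3 i
    exact ⟨A, (inSO_iff _).2 hA1, hA⟩
  · rintro τ hτ ⟨i, c, hc⟩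
    obtain ⟨A, -, hA⟩ := h3 i
    have h5 : R (c⁻¹ * τ * c) = 1 := by
      rw [show R (c⁻¹ * τ * c) = A * r i ⟨_, hc⟩ * A⁻¹ from hA ⟨_, hc⟩,
        ((hr i).2.2 v hv).1 ⟨_, hc⟩ (Pool.Agent.X289.TF.isInert_conj' hτ c), mul_one, mul_inv_cancel]
    rw [map_mul, map_mul, map_inv, mul_assoc, inv_mul_eq_one] at h5
    exact (mul_eq_right.1 h5.symm)
  · rintro σ hσ ⟨i, c, hc⟩
    obtain ⟨A, -, hA⟩ := h3 i
    have h7 : IsFrob v (c⁻¹ * σ⁻¹ * c)⁻¹ := by
      have h6 : (c⁻¹ * σ⁻¹ * c)⁻¹ = c⁻¹ * σ * c := by group
      rw [h6]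
      exact Pool.Agent.X289.TF.isFrob_conj' hσ c
    have h5 : HasEigenvalues (R (c⁻¹ * σ⁻¹ * c)) (a v) := by
      rw [show R (c⁻¹ * σ⁻¹ * c) = A * r i ⟨_, hc⟩ * A⁻¹ from hA ⟨_, hc⟩]
      exact (((hr i).2.2 v hv).2 ⟨_, hc⟩ h7).conj A
    have h8 := h5.conj (R c)
    have h9 : R c * R (c⁻¹ * σ⁻¹ * c) * (R c)⁻¹ = R σ⁻¹ := by
      rw [map_mul, map_mul, map_inv R c]
      group
    rwa [h9] at h8
  · obtain ⟨A, hA1, hA⟩ := h4 R' (fun g => (inSO_iff _).1 (hR' g)) htr
    exact ⟨A, (inSO_iff _).2 hA1, hA⟩

end Pool.Agent.Results.MP_666dc0_nt.OddOrthogonalDescent
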