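import Pool.Agent.X320.FS.CompatAlg

/-!
# Galois representations attached to automorphic representations are Frobenius semisimple at almost all places

The conjecture of Buzzard and Gee asks for Galois representations `r` for which the Frobenius elements at all
unramified places `v ∤ ℓ` are semisimple and lie in the conjugacy class `ι(s_v)` of the Satake parameter. The known
constructions often give only the characteristic polynomials: for a regular algebraic cuspidal automorphic
representation of `GL_n` over a totally real or CM field (Harris-Lan-Taylor-Thorne, Scholze) there is a
continuous semisimple `r : G_K → GL_n(ℚ̄_ℓ)`, unramified at `v` and with the characteristic polynomial of `ι(s_v)`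
at the Frobenius elements at `v`; when `π` is not polarizable it is not known that they are semisimple.

Here we prove that they are semisimple at 100 % of the places, and that the set of these places can be chosen
independent of `ℓ`, of the embedding `ι` of the coefficient field `E` and of `r`. There is no hypothesis on the
image of `r`, except that `r` is a semisimple representation.

For a general reductive group one applies this to the composition of `r` with a faithful algebraic
representation of the `L`-group: an element of the `L`-group is semisimple if and only if its image is, and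
a semisimple element with the image `ι(s_v)` in `X_v` is in the conjugacy class `ι(s_v)`.

Proof. Let `c(x)` be the number of different eigenvalues of `r(x)`. We show that `r(x)` is semisimple when `x` is a
local maximum of `c`. In this case the coefficients of the radical of the characteristic polynomial
are differentiable at `x` along the image of a neighbourhood of `1`, and their derivatives show that the nilpotent part
`ν` of the logarithm `Y` of a power of `r(x)` is orthogonal to the Lie algebra `𝔤` of the image for the trace form;
since `r` is semisimple, it follows that `ν` commutes with `𝔤`, and then that `ν = 0`. For Frobenius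
elements `c(x)` is the number of different roots of `P_v`, so it does not depend on `ℓ`, `ι` and `r`. By the theorem
of Chebotarev there is an open subgroup such that for every `r` the maximum of `c` on a coset is the same, and it
is attained outside a set of measure zero. If `ℚ̄_ℓ` is replaced by its completion, the semisimplicity of `r` is used
in the form that the trace form is nondegenerate on the algebra of the image.
-/

set_option autoImplicit false

namespace Pool.Agent.Results.MP_666dc0_nt.SemisimpleAtAlmostAll

open NumberField IsDedekindDomain Polynomial Matrix Filter Topology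
open Pool.Agent.W401.Cheb (GK IsFrob IsInert dens)

/-- the subspace `U` is stable under the representation `r` -/
def Stable {Γ F : Type} [Group Γ] [Field F] {n : ℕ} (r : Γ →* GL (Fin n) F) (U : Submodule F (Fin n → F)) : Prop :=
  ∀ g, ∀ x ∈ U, (r g : Matrix (Fin n) (Fin n) F) *ᵥ x ∈ U

/-- the representation `r` is semisimple: every stable subspace has a stable complement -/
def SemisimpleRep {Γ F : Type} [Group Γ] [Field F] {n : ℕ} (r : Γ →* GL (Fin n) F) : Prop :=
  ∀ U, Stable r U → ∃ U', Stable r U' ∧ IsCompl U U'

/-- the matrix `X` is semisimple: its minimal polynomial has no repeated roots -/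
def SemisimpleMatrix {F : Type} [Field F] {n : ℕ} (X : Matrix (Fin n) (Fin n) F) : Prop := (minpoly F X).Separable

/-- The representation `r` corresponds to the polynomials `Q v` outside `S` up to semisimplification: for all finite
places `v` of `K` outside `S` the inertia groups at `v` act trivially, and the inverses of the
Frobenius elements at `v` have the characteristic polynomial `Q v`. -/
def HasPolynomials {K F : Type} [Field K] [NumberField K] [Field F] {n : ℕ} (r : GK K →* GL (Fin n) F)
    (S : Set (HeightOneSpectrum (𝓞 K))) (Q : HeightOneSpectrum (𝓞 K) → F[X]) : Prop :=
  ∀ v, v ∉ S → (∀ τ, IsInert v τ → r τ = 1) ∧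
    ∀ σ, IsFrob v σ → (r σ⁻¹ : Matrix (Fin n) (Fin n) F).charpoly = Q v

/-- Let `K` and `E` be number fields, `S` a finite set of finite places of `K`, and `P v` for `v ∉ S` a polynomial with
coefficients in `E` (the characteristic polynomial of the Satake parameter at `v`). There is a set of places `v ∉ S` of
density one with the following property. Let `ℓ` be any prime number prime to `v`, let `ι` be any embedding of `E` into
the algebraic closure `ℚ̄_ℓ` of `ℚ_ℓ`, and let `r : G_K → GL_n(ℚ̄_ℓ)` be any continuous semisimple representation,
unramified and with Frobenius polynomials `ι(P u)` at the places `u ∉ S`, `u ∤ ℓ`. Then the Frobenius elements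
at `v` (and their inverses) are semisimple in `r`. -/
theorem result (K : Type) [Field K] [NumberField K] (E : Type) [Field E] [NumberField E] (n : ℕ)
    (S : Set (HeightOneSpectrum (𝓞 K))) (hS : S.Finite) (P : HeightOneSpectrum (𝓞 K) → E[X]) :
    Tendsto (dens fun v => v ∉ S ∧ ∀ (ℓ : ℕ) [Fact ℓ.Prime], (ℓ : 𝓞 K) ∉ v.asIdeal →
      ∀ (ι : E →+* PadicAlgCl ℓ) (r : GK K →* GL (Fin n) (PadicAlgCl ℓ)), Continuous r → SemisimpleRep r →
        HasPolynomials r (S ∪ {u | (ℓ : 𝓞 K) ∈ u.asIdeal}) (fun u => (P u).map ι) →
          ∀ σ, IsFrob v σ → SemisimpleMatrix (r σ : Matrix (Fin n) (Fin n) (PadicAlgCl ℓ)) ∧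
            SemisimpleMatrix (r σ⁻¹ : Matrix (Fin n) (Fin n) (PadicAlgCl ℓ)))
      atTop (𝓝 1) := by
  refine Pool.Agent.X320.FS.dens_one_remove ∅ Set.finite_empty ?_ (Pool.Agent.X320.FS.compat_alg (n := n) hS P)
  rintro v ⟨hvS, hv⟩ -
  refine ⟨hvS, fun ℓ hℓ hvℓ ι r hr hss hc σ hσ => ?_⟩
  have h1 := hv ℓ hvℓ ι r hr hss hc σ hσ
  have h2 := Pool.Agent.X320.FS.ss_inv (Pool.Agent.X320.KR.val_mul_inv (ρ := r) σ) h1
  have key : ∀ X : Matrix (Fin n) (Fin n) (PadicAlgCl ℓ), Module.End.IsSemisimple (Matrix.toLin' X) →
      SemisimpleMatrix X := by
    intro X hX
    have h3 := hX.minpoly_squarefree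
    rw [Matrix.minpoly_toLin'] at h3
    exact (PerfectField.separable_iff_squarefree).2 h3
  exact ⟨key _ h1, key _ h2⟩

end Pool.Agent.Results.MP_666dc0_nt.SemisimpleAtAlmostAll
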